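import Pool.Agent.MTF.StmtsA
import Pool.Agent.Helper78_MT.GroupB

/-!
# RK2: an irreducible Lie algebra of infinitesimal isometries of a symplectic form which contains a
nonzero element of square zero and of rank at most two
-/

set_option autoImplicit false

namespace Pool.Agent.MTF.H17

open Matrix Pool.Agent.Helper78_MT

theorem rk2 : Rk2Stmt := by
  intro d _ _ Ψ hskew hdet g hbr hle hirr hN X hX
  obtain ⟨N, hN, hN0, hN2, hr⟩ := hN
  obtain ⟨g', hg'⟩ : ∃ g' : Submodule ℂ (Module.End ℂ (d → ℂ)), ∀ A, φm A ∈ g' ↔ A ∈ g := by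
    refine ⟨g.map (φm (K := ℂ) (n := d)).toLinearEquiv.toLinearMap, fun A => ?_⟩
    rw [Submodule.mem_map]
    constructor
    · rintro ⟨B, hB, h⟩
      have h1 : φm B = φm A := h
      rw [← φm.injective h1]
      exact hB
    · intro h
      exact ⟨A, h, rfl⟩
  have hall : ∀ Y : Module.End ℂ (d → ℂ), ∃ A, φm A = Y := fun Y => φm.surjective Y
  have hb : BrClosed g' := by
    intro Y hY Z hZ
    obtain ⟨A, rfl⟩ := hall Y
    obtain ⟨B, rfl⟩ := hall Z
    rw [hg'] at hY hZ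
    rw [← map_mul, ← map_mul, ← map_sub, hg']
    exact hbr A hY B hZ
  have hsk : ∀ A : Matrix d d ℂ, A ∈ sk Ψ → ∀ u v, bil Ψ (φm A u) v = -bil Ψ u (φm A v) := by
    intro A hA u v
    have h0 : Aᵀ * Ψ + Ψ * A = 0 := hA
    have h1 := bil_mul Ψ A 1 u v
    have h2 := bil_mul Ψ 1 A u v
    rw [one_mulVec, mul_one] at h1
    rw [one_mulVec, transpose_one, one_mul] at h2
    rw [φm_apply, φm_apply, h1, h2, eq_neg_iff_add_eq_zero, bil_apply, bil_apply,
      ← dotProduct_add, ← add_mulVec, h0, zero_mulVec, dotProduct_zero]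
  have hsp : ∀ Y ∈ g', ∀ u v, bil Ψ (Y u) v = -bil Ψ u (Y v) := by
    intro Y hY
    obtain ⟨A, rfl⟩ := hall Y
    rw [hg'] at hY
    exact hsk A (hle hY)
  have nψ : ∀ u, (∀ v, bil Ψ u v = 0) → u = 0 := by
    intro u hu
    have h1 : u ᵥ* Ψ = 0 := by
      apply dotProduct_eq_zero
      intro v
      rw [← dotProduct_mulVec]
      exact hu v
    have h2 : (u ᵥ* Ψ) ᵥ* Ψ⁻¹ = u := by
      rw [vecMul_vecMul, mul_nonsing_inv _ hdet, vecMul_one]
    rw [← h2, h1, zero_vecMul]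
  have skew : ∀ u v, bil Ψ u v = -bil Ψ v u := by
    intro u v
    rw [bil_apply, bil_apply, dotProduct_mulVec v, ← mulVec_transpose, hskew, neg_mulVec,
      neg_dotProduct, neg_neg, dotProduct_comm]
  have hI : Irr g' := by
    intro U hU
    apply hirr U
    intro A hA x hx
    exact hU (φm A) ((hg' A).2 hA) x hx
  have htr : ∀ Y ∈ g', LinearMap.trace ℂ (d → ℂ) Y = 0 := by
    intro Y hY
    have h1 : LinearMap.trace ℂ (d → ℂ) Y = LinearMap.trace ℂ (d → ℂ) (-Y) := by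
      apply trace_adj nψ
      intro u v
      rw [hsp Y hY, LinearMap.neg_apply, map_neg]
    rw [map_neg] at h1
    have h2 : (2 : ℂ) * LinearMap.trace ℂ (d → ℂ) Y = 0 := by linear_combination h1
    exact (mul_eq_zero.mp h2).resolve_left two_ne_zero
  have hM0 : φm N ≠ 0 := by
    intro h
    apply hN0
    apply φm.injective
    rw [h, map_zero]
  have hM2 : φm N * φm N = 0 := by rw [← map_mul, hN2, map_zero]
  have hMg : φm N ∈ g' := (hg' N).2 hN
  obtain ⟨v, hv⟩ : ∃ v, φm N v ≠ 0 := by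
    by_contra hcon
    push Not at hcon
    exact hM0 (LinearMap.ext hcon)
  have : Nontrivial (d → ℂ) := ⟨φm N v, 0, hv⟩
  have c : Ctx (bil Ψ) g' := ⟨hb, hsp, nd_of_irr hb hI htr, hI, nψ, skew⟩
  rw [← hg']
  by_cases hone : ∃ Y ∈ g', Y * Y = 0 ∧ rk Y = 1
  · obtain ⟨Y, hY, _, hY1⟩ := hone
    exact c.rank_one hY hY1 (hsk X hX)
  · exfalso
    push Not at hone
    have h1 : rk (φm N) ≠ 0 := fun h => hM0 (rk_eq_zero h)
    have h2 := hone _ hMg hM2
    have h3 : rk (φm N) ≤ 2 := by rw [rk_φm]; exact hr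
    refine c.no_two ⟨fun Y hY hY2 hlt ho => ?_, Or.inr rfl⟩ hMg hM2 (by omega)
    have h4 := ho.pos
    exact hone Y hY hY2 (by omega)

end Pool.Agent.MTF.H17
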